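import Mathlib
import Pool.Agent.Q64.EI.StA

/-!
# Project EI of helper64: job KOS
-/

set_option autoImplicit false
set_option linter.unusedSectionVars false

open Finset Pool.Agent.Q64.EI

namespace Pool.Agent.Q280.EI.Kos

section abs

variable {M : Type*} [AddCommGroup M]

theorem koszul (T : ℕ → AddMonoid.End M) (k : ℕ)
    (hcomm : ∀ i j, i < k → j < k → ∀ x, T i (T j x) = T j (T i x))
    (h5 : ∀ j < k, ∀ (g : M) (h : ℕ → M), T j g = ∑ i ∈ range j, T i (h i) →
      ∃ h' : ℕ → M, g = ∑ i ∈ range j, T i (h' i)) :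
    ∀ m ≤ k, ∀ g : ℕ → M, ∑ i ∈ range m, T i (g i) = 0 →
      ∃ b : ℕ → ℕ → M, (∀ i j, b i j = -b j i) ∧ (∀ i, b i i = 0) ∧
        ∀ i < m, g i = ∑ j ∈ range m, T j (b i j) := by
  intro m
  induction m with
  | zero =>
    intro _ g _
    exact ⟨fun _ _ => 0, by simp, by simp, fun i hi => absurd hi (Nat.not_lt_zero i)⟩
  | succ m ih =>
    intro hm g hg
    rw [Finset.sum_range_succ] at hg
    obtain ⟨c, hc⟩ := h5 m (by omega) (g m) (fun i => -g i) (by
      simp only [map_neg, Finset.sum_neg_distrib]
      exact eq_neg_of_add_eq_zero_right hg)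
    obtain ⟨b, hb1, hb2, hb3⟩ := ih (by omega) (fun i => g i + T m (c i)) (by
      simp only [map_add, Finset.sum_add_distrib]
      have h1 : ∑ i ∈ range m, T i (T m (c i)) = T m (g m) := by
        rw [hc, map_sum]
        refine Finset.sum_congr rfl fun i hi => ?_
        exact hcomm i m (by have := Finset.mem_range.1 hi; omega) (by omega) _
      rw [h1, hg])
    refine ⟨fun i j => if i < m then (if j < m then b i j else if j = m then -c i else 0) else
      if i = m then (if j < m then c j else 0) else 0, ?_, ?_, ?_⟩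
    · intro i j
      by_cases h1 : i < m <;> by_cases h2 : j < m
      · simp only [h1, h2, if_true]
        exact hb1 i j
      · by_cases h3 : j = m
        · subst h3
          simp [h1]
        · simp [h1, h2, h3]
      · by_cases h3 : i = m
        · subst h3
          simp [h2]
        · simp [h1, h2, h3]
      · simp [h1, h2]
    · intro i
      by_cases h1 : i < m
      · simp only [h1, if_true]
        exact hb2 i
      · simp [h1]
    · intro i hi
      rw [Finset.sum_range_succ]
      rcases Nat.lt_succ_iff_lt_or_eq.1 hi with h1 | h1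
      · simp only [h1, if_true, lt_irrefl, if_false]
        have h2 : ∑ j ∈ range m, T j (if j < m then b i j else if j = m then -c i else 0) =
            ∑ j ∈ range m, T j (b i j) := by
          refine Finset.sum_congr rfl fun j hj => ?_
          rw [if_pos (Finset.mem_range.1 hj)]
        rw [h2, ← hb3 i h1, map_neg]
        abel
      · subst h1
        simp only [lt_irrefl, if_false, if_true, map_zero, add_zero]
        have h2 : ∑ j ∈ range i, T j (if j < i then c j else 0) = ∑ j ∈ range i, T j (c j) := by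
          refine Finset.sum_congr rfl fun j hj => ?_
          rw [if_pos (Finset.mem_range.1 hj)]
        rw [h2]
        exact hc

/-- The product of the projections. -/
def PP (P : ℕ → AddMonoid.End M) : ℕ → AddMonoid.End M
  | 0 => 1
  | m + 1 => PP P m * P m

theorem five (T P : ℕ → AddMonoid.End M) (k : ℕ) (h1 : ∀ i < k, ∀ x, P i (T i x) = 0)
    (h2 : ∀ i < k, ∀ g, ∃ h, g - P i g = T i h)
    (h3 : ∀ i j, i < k → j < k → i ≠ j → ∀ x, P i (T j x) = T j (P i x))
    (h4 : ∀ i < k, ∀ x, T i x = 0 → x = 0) :
    ∀ j < k, ∀ (g : M) (h : ℕ → M), T j g = ∑ i ∈ range j, T i (h i) →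
      ∃ h' : ℕ → M, g = ∑ i ∈ range j, T i (h' i) := by
  have hA : ∀ m ≤ k, ∀ i < m, ∀ x, PP P m (T i x) = 0 := by
    intro m
    induction m with
    | zero => intro _ i hi; exact absurd hi (Nat.not_lt_zero i)
    | succ m ih =>
      intro hm i hi x
      change PP P m (P m (T i x)) = 0
      rcases Nat.lt_succ_iff_lt_or_eq.1 hi with h | h
      · rw [h3 m i (by omega) (by omega) (by omega)]
        exact ih (by omega) i h _
      · subst h
        rw [h1 i (by omega), map_zero]
  have hB : ∀ m ≤ k, ∀ j < k, m ≤ j → ∀ x, PP P m (T j x) = T j (PP P m x) := by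
    intro m
    induction m with
    | zero => intro _ j _ _ x; rfl
    | succ m ih =>
      intro hm j hj hmj x
      change PP P m (P m (T j x)) = T j (PP P m (P m x))
      rw [h3 m j (by omega) hj (by omega), ih (by omega) j hj (by omega)]
  have hC : ∀ m ≤ k, ∀ g : M, ∃ h : ℕ → M, g - PP P m g = ∑ i ∈ range m, T i (h i) := by
    intro m
    induction m with
    | zero =>
      intro _ g
      refine ⟨fun _ => 0, ?_⟩
      rw [Finset.sum_range_zero]
      exact sub_self g
    | succ m ih =>
      intro hm g
      obtain ⟨h, hh⟩ := ih (by omega) (P m g)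
      obtain ⟨c, hc⟩ := h2 m (by omega) g
      refine ⟨fun i => if i < m then h i else c, ?_⟩
      rw [Finset.sum_range_succ]
      simp only [lt_irrefl, if_false]
      rw [← hc]
      have h5 : ∑ i ∈ range m, T i (if i < m then h i else c) = ∑ i ∈ range m, T i (h i) := by
        refine Finset.sum_congr rfl fun j hj => ?_
        rw [if_pos (Finset.mem_range.1 hj)]
      rw [h5, ← hh]
      change g - PP P m (P m g) = _
      abel
  intro j hj g h hgh
  have e1 : T j (PP P j g) = 0 := by
    rw [← hB j hj.le j hj le_rfl, hgh, map_sum]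
    refine Finset.sum_eq_zero fun i hi => hA j hj.le i (Finset.mem_range.1 hi) _
  have e2 := h4 j hj _ e1
  obtain ⟨h', hh'⟩ := hC j hj.le g
  exact ⟨h', by rw [← hh', e2, sub_zero]⟩

end abs

section conc

variable {k : ℕ} {N : Type*} [AddCommGroup N]

/-- The operator on the coefficients. -/
def ph (δ e' : AddMonoid.End N) : AddMonoid.End N := -(δ * e')

/-- The projection. -/
noncomputable def PR (δ e' : AddMonoid.End N) (i : Fin k) : AddMonoid.End ((Fin k →₀ ℕ) →₀ N) :=
  Finsupp.liftAddHom fun a => (Finsupp.singleAddHom (a.update i 0)).comp (ph δ e' ^ a i : AddMonoid.End N)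

theorem PR_single (δ e' : AddMonoid.End N) (i : Fin k) (a : Fin k →₀ ℕ) (x : N) :
    PR δ e' i (Finsupp.single a x) = Finsupp.single (a.update i 0) ((ph δ e' ^ a i) x) := by
  exact Finsupp.liftAddHom_apply_single _ _ _

theorem end_ext {F G : AddMonoid.End ((Fin k →₀ ℕ) →₀ N)}
    (h : ∀ a x, F (Finsupp.single a x) = G (Finsupp.single a x)) (g : (Fin k →₀ ℕ) →₀ N) :
    F g = G g := by
  have : F = G := Finsupp.addHom_ext h
  rw [this]

theorem upd_add (i : Fin k) (a : Fin k →₀ ℕ) :
    (a + Finsupp.single i 1).update i 0 = a.update i 0 := by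
  ext j
  by_cases h : j = i
  · subst h
    simp [Finsupp.coe_update]
  · simp [Finsupp.coe_update, Function.update_of_ne h, Finsupp.single_eq_of_ne h]

theorem upd_add_ne {i j : Fin k} (hij : i ≠ j) (a : Fin k →₀ ℕ) :
    (a + Finsupp.single j 1).update i 0 = a.update i 0 + Finsupp.single j 1 := by
  ext l
  by_cases h : l = i
  · subst h
    simp [Finsupp.coe_update, Finsupp.single_eq_of_ne hij]
  · simp [Finsupp.coe_update, Function.update_of_ne h]

variable (δ e e' : Fin k → AddMonoid.End N) (T : Fin k → AddMonoid.End ((Fin k →₀ ℕ) →₀ N))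
  (he : ∀ i, e i * e' i = 1 ∧ e' i * e i = 1)
  (hc : ∀ i j, i ≠ j → e i * e j = e j * e i ∧ e i * δ j = δ j * e i ∧ δ i * δ j = δ j * δ i)
  (hT : ∀ i a x, T i (Finsupp.single a x) =
    Finsupp.single (a + Finsupp.single i 1) (e i x) + Finsupp.single a (δ i x))

include he hT

omit hT in
theorem e'_e (i : Fin k) (x : N) : e' i (e i x) = x := DFunLike.congr_fun (he i).2 x

omit hT in
theorem e_e' (i : Fin k) (x : N) : e i (e' i x) = x := DFunLike.congr_fun (he i).1 x

omit hT in
theorem ph_e (i : Fin k) (x : N) : ph (δ i) (e' i) (e i x) = -δ i x := by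
  change -(δ i (e' i (e i x))) = _
  rw [e'_e e e' he i x]

theorem one (i : Fin k) (x) : PR (δ i) (e' i) i (T i x) = 0 := by
  have h := end_ext (F := PR (δ i) (e' i) i * T i) (G := 0) (fun a x => ?_) x
  · exact h
  change PR (δ i) (e' i) i (T i (Finsupp.single a x)) = 0
  rw [hT, map_add, PR_single, PR_single, upd_add, ← Finsupp.single_add]
  have h1 : (a + Finsupp.single i 1 : Fin k →₀ ℕ) i = a i + 1 := by simp
  rw [h1, pow_succ]
  change Finsupp.single _ ((ph (δ i) (e' i) ^ a i) (ph (δ i) (e' i) (e i x)) + _) = _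
  rw [ph_e δ e e' he, map_neg, neg_add_cancel, Finsupp.single_zero]

theorem two (i : Fin k) (g) : ∃ h, g - PR (δ i) (e' i) i g = T i h := by
  induction g using Finsupp.induction_linear with
  | zero => exact ⟨0, by rw [map_zero, map_zero, sub_zero]⟩
  | add f g hf hg =>
    obtain ⟨a, ha⟩ := hf
    obtain ⟨b, hb⟩ := hg
    refine ⟨a + b, ?_⟩
    rw [map_add, map_add, ← ha, ← hb]
    abel
  | single a x =>
    obtain ⟨n, hn⟩ : ∃ n, a i = n := ⟨_, rfl⟩
    induction n generalizing a x with
    | zero =>
      refine ⟨0, ?_⟩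
      have h1 : a.update i 0 = a := by
        ext j
        by_cases h : j = i
        · subst h
          simp [Finsupp.coe_update, hn]
        · simp [Finsupp.coe_update, Function.update_of_ne h]
      rw [PR_single, h1, hn, pow_zero, map_zero]
      exact sub_self _
    | succ n ih =>
      obtain ⟨c, hc⟩ := ih (a.update i n) (ph (δ i) (e' i) x) (by simp [Finsupp.coe_update])
      have h1 : a.update i n + Finsupp.single i 1 = a := by
        ext j
        by_cases h : j = i
        · subst h
          simp [Finsupp.coe_update, hn]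
        · simp [Finsupp.coe_update, Function.update_of_ne h, Finsupp.single_eq_of_ne h]
      have h2 : PR (δ i) (e' i) i (Finsupp.single (a.update i n) (ph (δ i) (e' i) x)) =
          PR (δ i) (e' i) i (Finsupp.single a x) := by
        rw [PR_single, PR_single]
        have h3 : (a.update i n).update i 0 = a.update i 0 := by
          ext j
          by_cases h : j = i
          · subst h
            simp [Finsupp.coe_update]
          · simp [Finsupp.coe_update, Function.update_of_ne h]
        have h4 : (a.update i n) i = n := by simp [Finsupp.coe_update]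
        rw [h3, h4, hn, pow_succ]
        rfl
      refine ⟨Finsupp.single (a.update i n) (e' i x) + c, ?_⟩
      rw [map_add, ← hc, h2, hT, h1, e_e' e e' he]
      have h5 : Finsupp.single (a.update i n) (ph (δ i) (e' i) x) =
          -Finsupp.single (a.update i n) (δ i (e' i x)) := by
        rw [← Finsupp.single_neg]
        rfl
      rw [h5]
      abel

theorem four (i : Fin k) (g) (hg : T i g = 0) : g = 0 := by
  classical
  have key : ∀ (g : (Fin k →₀ ℕ) →₀ N) (a : Fin k →₀ ℕ),
      (T i g) (a + Finsupp.single i 1 : Fin k →₀ ℕ) = e i (g a) + δ i (g (a + Finsupp.single i 1 : Fin k →₀ ℕ)) := by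
    intro g a
    induction g using Finsupp.induction_linear with
    | zero => simp
    | add f g hf hg =>
      rw [map_add (T i), Finsupp.add_apply, hf, hg, Finsupp.add_apply, Finsupp.add_apply,
        map_add (e i), map_add (δ i)]
      abel
    | single b x =>
      rw [hT, Finsupp.add_apply]
      congr 1
      · rw [Finsupp.single_apply, Finsupp.single_apply]
        by_cases h : b = a
        · subst h
          simp
        · rw [if_neg h, if_neg (fun h' => h (add_right_cancel h')), map_zero]
      · rw [Finsupp.single_apply, Finsupp.single_apply]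
        split_ifs <;> simp
  by_contra hne
  obtain ⟨a, ha, hmax⟩ := Finset.exists_max_image g.support (fun a => a i)
    (Finsupp.support_nonempty_iff.2 hne)
  have h1 : g (a + Finsupp.single i 1) = 0 := by
    by_contra h
    have := hmax _ (Finsupp.mem_support_iff.2 h)
    simp at this
  have h2 := key g a
  rw [hg, h1, map_zero, add_zero] at h2
  have h3 : g a = 0 := by
    rw [← e'_e e e' he i (g a), ← h2]
    simp
  exact (Finsupp.mem_support_iff.1 ha) h3

include hc

omit hT in
theorem comm_e' {i j : Fin k} (hij : i ≠ j) : e' i * e j = e j * e' i ∧ e' i * δ j = δ j * e' i := by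
  obtain ⟨h1, h2, -⟩ := hc i j hij
  obtain ⟨h3, h4⟩ := he i
  constructor
  · calc e' i * e j = e' i * e j * (e i * e' i) := by rw [h3, mul_one]
      _ = e' i * (e j * e i) * e' i := by simp only [mul_assoc]
      _ = e' i * (e i * e j) * e' i := by rw [h1]
      _ = (e' i * e i) * e j * e' i := by simp only [mul_assoc]
      _ = e j * e' i := by rw [h4, one_mul]
  · calc e' i * δ j = e' i * δ j * (e i * e' i) := by rw [h3, mul_one]
      _ = e' i * (δ j * e i) * e' i := by simp only [mul_assoc]
      _ = e' i * (e i * δ j) * e' i := by rw [h2]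
      _ = (e' i * e i) * δ j * e' i := by simp only [mul_assoc]
      _ = δ j * e' i := by rw [h4, one_mul]

omit hT in
theorem comm_ph {i j : Fin k} (hij : i ≠ j) (m : ℕ) :
    (ph (δ i) (e' i)) ^ m * e j = e j * (ph (δ i) (e' i)) ^ m ∧
      (ph (δ i) (e' i)) ^ m * δ j = δ j * (ph (δ i) (e' i)) ^ m := by
  obtain ⟨h1, h2⟩ := comm_e' δ e e' he hc hij
  obtain ⟨-, -, h3⟩ := hc i j hij
  obtain ⟨-, h4, -⟩ := hc j i hij.symm
  constructor
  · refine (Commute.pow_left ?_ m)
    change -(δ i * e' i) * e j = e j * -(δ i * e' i)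
    rw [neg_mul, mul_neg, mul_assoc, h1, ← mul_assoc, ← h4, mul_assoc]
  · refine (Commute.pow_left ?_ m)
    change -(δ i * e' i) * δ j = δ j * -(δ i * e' i)
    rw [neg_mul, mul_neg, mul_assoc, h2, ← mul_assoc, h3, mul_assoc]

theorem three {i j : Fin k} (hij : i ≠ j) (x) :
    PR (δ i) (e' i) i (T j x) = T j (PR (δ i) (e' i) i x) := by
  have h := end_ext (F := PR (δ i) (e' i) i * T j) (G := T j * PR (δ i) (e' i) i) (fun a x => ?_) x
  · exact h
  change PR (δ i) (e' i) i (T j (Finsupp.single a x)) = T j (PR (δ i) (e' i) i (Finsupp.single a x))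
  rw [hT, map_add, PR_single, PR_single, PR_single, hT, upd_add_ne hij]
  have h1 : (a + Finsupp.single j 1 : Fin k →₀ ℕ) i = a i := by
    simp [Finsupp.single_eq_of_ne hij]
  obtain ⟨h2, h3⟩ := comm_ph δ e e' he hc hij (a i)
  rw [h1]
  have h4 := DFunLike.congr_fun h2 x
  have h5 := DFunLike.congr_fun h3 x
  change (ph (δ i) (e' i) ^ a i) (e j x) = e j ((ph (δ i) (e' i) ^ a i) x) at h4
  change (ph (δ i) (e' i) ^ a i) (δ j x) = δ j ((ph (δ i) (e' i) ^ a i) x) at h5
  rw [h4, h5]

omit he in
theorem commT (i j : Fin k) (x) : T i (T j x) = T j (T i x) := by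
  by_cases hij : i = j
  · subst hij; rfl
  have h := end_ext (F := T i * T j) (G := T j * T i) (fun a x => ?_) x
  · exact h
  change T i (T j (Finsupp.single a x)) = T j (T i (Finsupp.single a x))
  obtain ⟨h1, h2, h3⟩ := hc i j hij
  obtain ⟨-, h4, -⟩ := hc j i (Ne.symm hij)
  have h1 := DFunLike.congr_fun h1 x
  have h2 := DFunLike.congr_fun h2 x
  have h3 := DFunLike.congr_fun h3 x
  have h4 := DFunLike.congr_fun h4 x
  change e i (e j x) = e j (e i x) at h1
  change e i (δ j x) = δ j (e i x) at h2
  change δ i (δ j x) = δ j (δ i x) at h3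
  change e j (δ i x) = δ i (e j x) at h4
  rw [hT, hT, map_add, map_add, hT, hT, hT, hT, h1, h2, h3, h4, add_right_comm a]
  abel

end conc

/-- JOB KOS. -/
theorem kos : S_kos := by
  intro k N _ δ e e' he hc T hT g hg
  classical
  let T' : ℕ → AddMonoid.End ((Fin k →₀ ℕ) →₀ N) := fun i => if h : i < k then T ⟨i, h⟩ else 0
  let P' : ℕ → AddMonoid.End ((Fin k →₀ ℕ) →₀ N) := fun i =>
    if h : i < k then PR (δ ⟨i, h⟩) (e' ⟨i, h⟩) ⟨i, h⟩ else 0
  have hT' : ∀ i (h : i < k), T' i = T ⟨i, h⟩ := fun i h => dif_pos h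
  have hP' : ∀ i (h : i < k), P' i = PR (δ ⟨i, h⟩) (e' ⟨i, h⟩) ⟨i, h⟩ := fun i h => dif_pos h
  have h5 := five T' P' k
    (fun i hi x => by rw [hT' i hi, hP' i hi]; exact one δ e e' T he hT _ x)
    (fun i hi g => by rw [hT' i hi, hP' i hi]; exact two δ e e' T he hT _ g)
    (fun i j hi hj hij x => by
      rw [hT' j hj, hP' i hi]
      exact three δ e e' T he hc hT (fun h => hij (congrArg Fin.val h)) x)
    (fun i hi x hx => by
      rw [hT' i hi] at hx
      exact four δ e e' T he hT _ x hx)
  obtain ⟨b, hb1, hb2, hb3⟩ := koszul T' k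
    (fun i j hi hj x => by rw [hT' i hi, hT' j hj]; exact commT δ e T hc hT _ _ x) h5 k le_rfl
    (fun i => if h : i < k then g ⟨i, h⟩ else 0) (by
      rw [Finset.sum_range]
      rw [← hg]
      refine Finset.sum_congr rfl fun i _ => ?_
      rw [hT' i i.2, dif_pos i.2])
  refine ⟨fun i j => b i j, fun i j => hb1 _ _, fun i => hb2 _, fun i => ?_⟩
  have h6 := hb3 i i.2
  simp only [i.2, dif_pos] at h6
  rw [h6, Finset.sum_range]
  refine Finset.sum_congr rfl fun j _ => ?_
  rw [hT' j j.2]

end Pool.Agent.Q280.EI.Kos
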