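import Mathlib
import Pool.Agent.Q64.EI.StA

/-!
# Project EI of helper64: job LM1
-/

set_option autoImplicit false
set_option linter.unusedSectionVars false

open Finset MvPolynomial Pool.Agent.Q64.EI

namespace Pool.Agent.Q280.EI.Lm1

variable {d n : ℕ} (A : Matrix (Fin (d + 1)) (Fin (n + 1)) ℂ)

theorem sp_shift (u : Fin (n + 1) → ℂ) (j : Fin (n + 1)) :
    sp d (fun i => u i - if i = j then 1 else 0) = sp d u + 1 := by
  unfold sp
  rw [Finset.sum_sub_distrib, Finset.sum_ite_eq' Finset.univ j, if_pos (Finset.mem_univ j)]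
  ring

theorem eul_shift (u : Fin (n + 1) → ℂ) (j : Fin (n + 1)) :
    eul d (fun i => u i - if i = j then 1 else 0) * dd j = dd j * eul d u := by
  unfold eul
  rw [sp_shift, add_mul, mul_add, Finset.sum_mul, Finset.mul_sum]
  have h1 : ∀ i, (dd j * (zz i * dd i) : DZ (n + 1)) =
      zz i * dd i * dd j + if i = j then dd j else 0 := by
    intro i
    rw [← mul_assoc, dd_zz, add_mul, mul_assoc, dd_comm j i, ← mul_assoc]
    congr 1
    by_cases h : i = j
    · subst h
      simp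
    · rw [if_neg h, if_neg (Ne.symm h), zero_mul]
  rw [Finset.sum_congr rfl fun i _ => h1 i, Finset.sum_add_distrib,
    Finset.sum_ite_eq' Finset.univ j, if_pos (Finset.mem_univ j), map_add, map_one, add_mul,
    one_mul, Algebra.commutes]
  abel

theorem aux {B : Type*} [Ring B] [Algebra ℂ B] (z d e : B) (x ε : ℂ) (δ : B)
    (h1 : e * z = z * e + δ) (h2 : d * e = e * d) (h3 : δ * d ^ 2 = ε • (d * e)) :
    (z * d ^ 2 - (x - ε) • d) * e = e * (z * d ^ 2 - x • d) := by
  have h4 : z * d ^ 2 * e = z * e * d ^ 2 := by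
    have h5 : d * (d * e) = e * (d * d) := by rw [h2, ← mul_assoc, h2, mul_assoc]
    rw [pow_two, mul_assoc, mul_assoc d, h5, mul_assoc]
  rw [sub_mul, mul_sub, h4, ← mul_assoc e, h1, add_mul, h3, smul_mul_assoc, mul_smul_comm, sub_smul,
    h2]
  abel

theorem pop_shift (u : Fin (n + 1) → ℂ) (j : Fin (n + 1)) (i : Fin (d + 1)) :
    pop A (fun i => u i - if i = j then 1 else 0) i * dd j = dd j * pop A u i := by
  unfold pop
  rw [Finset.sum_mul, Finset.mul_sum]
  refine Finset.sum_congr rfl fun k _ => ?_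
  rw [smul_mul_assoc, mul_smul_comm]
  congr 1
  refine aux (zz k) (dd k) (dd j) (u k) (if k = j then 1 else 0) (if j = k then 1 else 0)
    (dd_zz j k) (dd_comm k j) ?_
  by_cases h : k = j
  · subst h
    simp only [if_true, one_mul, one_smul, pow_two]
  · rw [if_neg h, if_neg (Ne.symm h), zero_mul, zero_smul]

variable {M : Type} [AddCommGroup M] [Module (DZ (n + 1)) M]

theorem rel_shift (φ : MvPolynomial (Fin (n + 1)) ℂ →ₐ[ℂ] DZ (n + 1)) (hφ : ∀ h, φ h = hd h)
    (hX : ∀ j, φ (X j) = dd j) (u : Fin (n + 1) → ℂ) (j : Fin (n + 1)) (v : M) (hv : Rel A u v) :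
    Rel A (fun i => u i - if i = j then 1 else 0) ((dd j : DZ (n + 1)) • v) := by
  intro Q hQ
  rw [← mul_smul]
  apply hv
  induction hQ using Submodule.span_induction with
  | mem Q hQ =>
    rcases hQ with (hQ | hQ) | hQ
    · rw [Set.mem_singleton_iff.1 hQ, eul_shift]
      exact Submodule.smul_mem _ _ (Submodule.subset_span (Or.inl (Or.inl rfl)))
    · obtain ⟨i, rfl⟩ := hQ
      rw [pop_shift]
      exact Submodule.smul_mem _ _ (Submodule.subset_span (Or.inl (Or.inr ⟨i, rfl⟩)))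
    · obtain ⟨h, k, h1, h2, rfl⟩ := hQ
      rw [← hφ, ← hX, ← map_mul, mul_comm, map_mul]
      exact Submodule.smul_mem _ _ (Submodule.subset_span (Or.inr ⟨h, k, h1, h2, hφ h⟩))
  | zero => rw [zero_mul]; exact Submodule.zero_mem _
  | add x y _ _ hx hy => rw [add_mul]; exact Submodule.add_mem _ hx hy
  | smul a x _ hx => rw [smul_mul_assoc]; exact Submodule.smul_mem _ _ hx

/-- Polynomials which shift the parameter. -/
def Gd (φ : MvPolynomial (Fin (n + 1)) ℂ →ₐ[ℂ] DZ (n + 1)) (M : Type) [AddCommGroup M]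
    [Module (DZ (n + 1)) M] (p : MvPolynomial (Fin (n + 1)) ℂ) : Prop :=
  ∀ (u : Fin (n + 1) → ℂ) (x : M), Rel A u x →
    ∃ a : Fin (n + 1) → ℕ, Rel A (fun i => u i - a i) (φ p • x)

theorem Gd.one (φ : MvPolynomial (Fin (n + 1)) ℂ →ₐ[ℂ] DZ (n + 1)) : Gd A φ M 1 := by
  intro u x hx
  refine ⟨0, ?_⟩
  rw [map_one, one_smul]
  simpa using hx

theorem Gd.mul {φ : MvPolynomial (Fin (n + 1)) ℂ →ₐ[ℂ] DZ (n + 1)}
    {p q : MvPolynomial (Fin (n + 1)) ℂ} (hp : Gd A φ M p) (hq : Gd A φ M q) :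
    Gd A φ M (p * q) := by
  intro u x hx
  obtain ⟨a, ha⟩ := hq u x hx
  obtain ⟨b, hb⟩ := hp _ _ ha
  refine ⟨fun i => a i + b i, ?_⟩
  rw [map_mul, mul_smul]
  convert hb using 2
  push_cast
  ring

theorem Gd.pow {φ : MvPolynomial (Fin (n + 1)) ℂ →ₐ[ℂ] DZ (n + 1)}
    {p : MvPolynomial (Fin (n + 1)) ℂ} (hp : Gd A φ M p) (N : ℕ) : Gd A φ M (p ^ N) := by
  induction N with
  | zero => rw [pow_zero]; exact Gd.one A φ
  | succ N ih => rw [pow_succ]; exact Gd.mul A ih hp

theorem Gd.var {φ : MvPolynomial (Fin (n + 1)) ℂ →ₐ[ℂ] DZ (n + 1)} (hφ : ∀ h, φ h = hd h)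
    (hX : ∀ j, φ (X j) = dd j) (j : Fin (n + 1)) : Gd A φ M (X j) := by
  intro u x hx
  refine ⟨fun i => if i = j then 1 else 0, ?_⟩
  rw [hX]
  have h1 := rel_shift A φ hφ hX u j x hx
  convert h1 using 3
  push_cast
  rfl

theorem Gd.prd {φ : MvPolynomial (Fin (n + 1)) ℂ →ₐ[ℂ] DZ (n + 1)} (hφ : ∀ h, φ h = hd h)
    (hX : ∀ j, φ (X j) = dd j) (S : Finset (Fin (n + 1))) : Gd A φ M (∏ j ∈ S, X j) := by
  refine Finset.prod_induction _ _ (fun p q hp hq => Gd.mul A hp hq) (Gd.one A φ) fun j _ =>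
    Gd.var A hφ hX j

/-- JOB LM1. -/
theorem lm1 (hP : S_pbw) : S_lm1 := by
  intro d n A u M _ _ v hv hv0 hN
  classical
  obtain ⟨φ, -, hφ, hX, -⟩ := hP (n + 1)
  let E : Finset (Fin (n + 1)) → M → Prop := fun S x => ∀ N : ℕ, φ ((∏ j ∈ S, X j) ^ N) • x ≠ 0
  have hcomm : ∀ (p q : MvPolynomial (Fin (n + 1)) ℂ) (x : M), φ p • φ q • x = φ q • φ p • x := by
    intro p q x
    rw [← mul_smul, ← mul_smul, ← map_mul, ← map_mul, mul_comm]
  have hmul : ∀ (p q : MvPolynomial (Fin (n + 1)) ℂ) (x : M), φ (p * q) • x = φ p • φ q • x := by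
    intro p q x
    rw [map_mul, mul_smul]
  -- a maximal alive set
  have h0 : E ∅ v := by
    intro N
    rw [Finset.prod_empty, one_pow, map_one, one_smul]
    exact hv0
  obtain ⟨S, hS, hmax⟩ := Finset.exists_max_image (univ.filter fun S => E S v) Finset.card
    ⟨∅, Finset.mem_filter.2 ⟨Finset.mem_univ _, h0⟩⟩
  have hSv : E S v := (Finset.mem_filter.1 hS).2
  have hkill : ∀ k ∉ S, ∃ N : ℕ, φ ((∏ j ∈ S, X j) ^ N) • φ (X k ^ N) • v = 0 := by
    intro k hk
    have h1 : ¬ E (insert k S) v := by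
      intro h
      have h2 := hmax _ (Finset.mem_filter.2 ⟨Finset.mem_univ _, h⟩)
      rw [Finset.card_insert_of_notMem hk] at h2
      omega
    have h2 : ∃ N : ℕ, φ ((∏ j ∈ insert k S, X j) ^ N) • v = 0 := by
      by_contra h3
      push Not at h3
      exact h1 h3
    obtain ⟨N, hN⟩ := h2
    refine ⟨N, ?_⟩
    rw [← hmul, ← mul_pow, mul_comm, ← Finset.prod_insert hk]
    exact hN
  have hne : S ≠ univ := by
    rintro rfl
    obtain ⟨j, N, hjN⟩ := hN
    apply hSv N
    rw [← Finset.mul_prod_erase _ _ (Finset.mem_univ j), mul_pow, mul_comm, hmul, map_pow φ (X j),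
      hX, hjN, smul_zero]
  have hmain : ∀ T : Finset (Fin (n + 1)), (∀ k ∈ T, k ∉ S) →
      ∃ (a : Fin (n + 1) → ℕ) (p : MvPolynomial (Fin (n + 1)) ℂ),
        Rel A (fun j => u j - a j) (φ p • v) ∧ E S (φ p • v) ∧
          ∀ k ∈ T, (dd k : DZ (n + 1)) • φ p • v = 0 := by
    intro T
    induction T using Finset.induction_on with
    | empty =>
      intro _
      refine ⟨0, 1, ?_, ?_, fun k hk => absurd hk (Finset.notMem_empty k)⟩
      · rw [map_one, one_smul]
        simpa using hv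
      · rw [map_one, one_smul]
        exact hSv
    | insert k T hkT ih =>
      intro hT
      obtain ⟨a, p, h1, h2, h3⟩ := ih fun j hj => hT j (Finset.mem_insert_of_mem hj)
      have hkS := hT k (Finset.mem_insert_self k T)
      obtain ⟨m, hm⟩ := hkill k hkS
      have hex : ∃ q, ¬ E S (φ (X k ^ q) • φ p • v) := by
        refine ⟨m, fun h => h m ?_⟩
        rw [hcomm (X k ^ m) p, hcomm _ p, hm, smul_zero]
      have hq1 := Nat.find_spec hex
      have hq2 : Nat.find hex ≠ 0 := by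
        intro h
        rw [h, pow_zero, map_one, one_smul] at hq1
        exact hq1 h2
      obtain ⟨q, hq⟩ := Nat.exists_eq_succ_of_ne_zero hq2
      have hq3 : E S (φ (X k ^ q) • φ p • v) := by
        by_contra h
        exact Nat.find_min hex (m := q) (by omega) h
      rw [hq] at hq1
      obtain ⟨N, hN⟩ : ∃ N : ℕ, φ ((∏ j ∈ S, X j) ^ N) • φ (X k ^ (q + 1)) • φ p • v = 0 := by
        by_contra h
        push Not at h
        exact hq1 h
      obtain ⟨b, hb⟩ := (Gd.mul A ((Gd.prd A hφ hX S).pow A N) ((Gd.var A hφ hX k).pow A q))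
        _ _ h1
      refine ⟨fun j => a j + b j, ((∏ j ∈ S, X j) ^ N * X k ^ q) * p, ?_, ?_, ?_⟩
      · rw [hmul]
        convert hb using 2
        push_cast
        ring
      · intro N'
        rw [hmul, hmul, ← hmul, ← pow_add]
        exact hq3 _
      · intro j hj
        rw [hmul, ← hX, hcomm]
        rcases Finset.mem_insert.1 hj with rfl | hj
        · rw [← hmul, mul_assoc, ← pow_succ, hmul]
          exact hN
        · rw [hX, h3 j hj, smul_zero]
  obtain ⟨a, p, h1, h2, h3⟩ := hmain Sᶜ fun k hk => Finset.mem_compl.1 hk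
  refine ⟨S, a, φ p • v, hne, h1, fun k hk => h3 k (Finset.mem_compl.2 hk), fun N => ?_⟩
  rw [← hφ]
  exact h2 N

end Pool.Agent.Q280.EI.Lm1
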