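import Mathlib
import Pool.Agent.Q64.EI.StA

/-!
# Project EI of helper64: job PBW
-/

set_option autoImplicit false
set_option linter.unusedSectionVars false

open Finset MvPolynomial Pool.Agent.Q64.EI

namespace Pool.Agent.Q280.EI

theorem ofFn_mul {B : Type*} [Monoid B] : ∀ {m : ℕ} (x y : Fin m → B)
    (_ : ∀ i j, x i * y j = y j * x i),
    (List.ofFn fun j => x j * y j).prod = (List.ofFn x).prod * (List.ofFn y).prod := by
  intro m
  induction m with
  | zero => intro x y _; simp
  | succ m ih =>
    intro x y h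
    rw [List.ofFn_succ, List.ofFn_succ, List.ofFn_succ, List.prod_cons, List.prod_cons,
      List.prod_cons, ih (fun i => x i.succ) (fun i => y i.succ) fun i j => h _ _]
    have h1 : (List.ofFn fun i : Fin m => x i.succ).prod * y 0 =
        y 0 * (List.ofFn fun i : Fin m => x i.succ).prod := by
      refine (Commute.list_prod_left _ _ fun b hb => ?_)
      obtain ⟨i, rfl⟩ := (List.mem_ofFn' _ _).1 hb
      exact h _ _
    calc x 0 * y 0 * ((List.ofFn fun i : Fin m => x i.succ).prod *
          (List.ofFn fun i : Fin m => y i.succ).prod)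
        = x 0 * (y 0 * (List.ofFn fun i : Fin m => x i.succ).prod) *
          (List.ofFn fun i : Fin m => y i.succ).prod := by simp only [mul_assoc]
      _ = _ := by rw [← h1]; simp only [mul_assoc]

theorem ofFn_single {B : Type*} [Monoid B] : ∀ {m : ℕ} (x : Fin m → B) (j : Fin m)
    (_ : ∀ i, i ≠ j → x i = 1), (List.ofFn x).prod = x j := by
  intro m
  induction m with
  | zero => intro x j; exact j.elim0
  | succ m ih =>
    intro x j h
    rw [List.ofFn_succ, List.prod_cons]
    refine Fin.cases ?_ (fun j => ?_) j (motive := fun j => (∀ i, i ≠ j → x i = 1) →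
      x 0 * (List.ofFn fun i : Fin m => x i.succ).prod = x j) h
    · intro h
      have h1 : (fun i : Fin m => x i.succ) = fun _ => 1 := by
        funext i
        exact h _ (Fin.succ_ne_zero i)
      rw [h1]
      simp
    · intro h
      rw [h 0 (Fin.succ_ne_zero j).symm, one_mul]
      exact ih (fun i => x i.succ) j fun i hi => h _ fun h => hi (Fin.succ_injective _ h)

section gen

variable {m : ℕ} {B : Type} [Ring B] [Algebra ℂ B]

/-- The homomorphism of monoids. -/
noncomputable def mon (f : Fin m → B) (hf : ∀ i j, f i * f j = f j * f i) :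
    Multiplicative (Fin m →₀ ℕ) →* B where
  toFun a := (List.ofFn fun j => f j ^ a.toAdd j).prod
  map_one' := by simp
  map_mul' a b := by
    rw [← ofFn_mul]
    · simp only [toAdd_mul, Finsupp.coe_add, Pi.add_apply, pow_add]
    · intro i j
      exact Commute.pow_pow (hf i j) _ _

/-- The homomorphism from the polynomial ring given by commuting elements. -/
noncomputable def pol (f : Fin m → B) (hf : ∀ i j, f i * f j = f j * f i) :
    MvPolynomial (Fin m) ℂ →ₐ[ℂ] B :=
  AddMonoidAlgebra.lift ℂ B (Fin m →₀ ℕ) (mon f hf)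

theorem pol_apply (f : Fin m → B) (hf : ∀ i j, f i * f j = f j * f i)
    (h : MvPolynomial (Fin m) ℂ) :
    pol f hf h = ∑ a ∈ h.support, h.coeff a • (List.ofFn fun j : Fin m => f j ^ a j).prod := by
  unfold pol
  rw [AddMonoidAlgebra.lift_apply]
  rfl

theorem pol_X (f : Fin m → B) (hf : ∀ i j, f i * f j = f j * f i) (j : Fin m) :
    pol f hf (X j) = f j := by
  rw [pol_apply, support_X, Finset.sum_singleton, coeff_X, if_pos rfl, one_smul,
    ofFn_single _ j]
  · simp
  · intro i hi
    rw [Finsupp.single_eq_of_ne hi, pow_zero]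

end gen

/-- JOB PBW. -/
theorem pbw : S_pbw := by
  intro m
  let φ := pol (fun j : Fin m => (dd j : DZ m)) dd_comm
  let ψ := pol (fun j : Fin m => (zz j : DZ m)) zz_comm
  have hφX : ∀ j, φ (X j) = dd j := fun j => pol_X _ _ j
  have hψX : ∀ j, ψ (X j) = zz j := fun j => pol_X _ _ j
  refine ⟨φ, ψ, fun h => pol_apply _ _ h, hφX, hψX, ?_⟩
  let Θ : ((Fin m →₀ ℕ) →₀ MvPolynomial (Fin m) ℂ) →+ DZ m :=
    Finsupp.liftAddHom fun a => (AddMonoidHom.mulLeft (ψ (monomial a 1))).comp φ.toRingHom.toAddMonoidHom
  have hΘ : ∀ c, Θ c = c.sum fun a h => ψ (monomial a 1) * φ h := fun c => rfl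
  have hΘs : ∀ a h, Θ (Finsupp.single a h) = ψ (monomial a 1) * φ h := by
    intro a h
    rw [hΘ, Finsupp.sum_single_index]
    rw [map_zero, mul_zero]
  let R := Θ.range
  have hR1 : ∀ p h, ψ p * φ h ∈ R := by
    intro p h
    induction p using MvPolynomial.induction_on' with
    | add p q hp hq =>
      rw [map_add, add_mul]
      exact R.add_mem hp hq
    | monomial a b =>
      refine ⟨Finsupp.single a (C b * h), ?_⟩
      have h1 : (monomial a b : MvPolynomial (Fin m) ℂ) = C b * monomial a 1 := by
        rw [C_mul_monomial, mul_one]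
      rw [hΘs, h1, map_mul, map_mul, ← MvPolynomial.algebraMap_eq, AlgHom.commutes, AlgHom.commutes,
        ← mul_assoc, Algebra.commutes b (ψ (monomial a 1))]
  have hdz : ∀ (j : Fin m) (p : MvPolynomial (Fin m) ℂ),
      dd j * ψ p = ψ p * dd j + ψ (pderiv j p) := by
    intro j p
    induction p using MvPolynomial.induction_on with
    | C a =>
      rw [← MvPolynomial.algebraMap_eq, AlgHom.commutes, MvPolynomial.algebraMap_eq, pderiv_C,
        map_zero, add_zero, Algebra.commutes]
    | add p q hp hq =>
      rw [map_add, map_add, map_add, mul_add, add_mul, hp, hq]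
      abel
    | mul_X p i hp =>
      rw [map_mul, ← mul_assoc, hp, hψX, add_mul, mul_assoc, dd_zz, pderiv_mul, map_add, map_mul,
        map_mul, hψX, pderiv_X, mul_add, ← mul_assoc]
      have h1 : ψ p * (if j = i then 1 else 0) = ψ p * ψ (Pi.single (M := fun _ => MvPolynomial (Fin m) ℂ) j 1 i) := by
        by_cases h : j = i
        · subst h
          rw [if_pos rfl, Pi.single_eq_same, map_one]
        · rw [if_neg h, Pi.single_eq_of_ne (Ne.symm h), map_zero]
      rw [h1]
      abel
  have hclosed : ∀ Q : DZ m, (∀ p h, Q * (ψ p * φ h) ∈ R) → ∀ r ∈ R, Q * r ∈ R := by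
    intro Q hQ r hr
    obtain ⟨c, rfl⟩ := hr
    induction c using Finsupp.induction_linear with
    | zero => rw [map_zero, mul_zero]; exact R.zero_mem
    | add f g hf hg => rw [map_add, mul_add]; exact R.add_mem hf hg
    | single a h => rw [hΘs]; exact hQ _ _
  have hzR : ∀ (j : Fin m), ∀ r ∈ R, zz j * r ∈ R := by
    intro j
    refine hclosed _ fun p h => ?_
    rw [← hψX, ← mul_assoc, ← map_mul]
    exact hR1 _ _
  have hdR : ∀ (j : Fin m), ∀ r ∈ R, dd j * r ∈ R := by
    intro j
    refine hclosed _ fun p h => ?_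
    rw [← mul_assoc, hdz, add_mul, mul_assoc, ← hφX, ← map_mul]
    exact R.add_mem (hR1 _ _) (hR1 _ _)
  have hkey : ∀ Q : DZ m, ∀ r ∈ R, Q * r ∈ R := by
    intro Q
    obtain ⟨q, rfl⟩ := RingQuot.mkAlgHom_surjective ℂ (WRel m) Q
    induction q using FreeAlgebra.induction with
    | grade0 a =>
      refine hclosed _ fun p h => ?_
      rw [AlgHom.commutes, ← mul_assoc, ← AlgHom.commutes ψ, ← map_mul]
      exact hR1 _ _
    | grade1 x =>
      rcases x with j | j
      · exact hzR j
      · exact hdR j
    | mul a b ha hb =>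
      intro r hr
      rw [map_mul, mul_assoc]
      exact ha _ (hb _ hr)
    | add a b ha hb =>
      intro r hr
      rw [map_add, add_mul]
      exact R.add_mem (ha _ hr) (hb _ hr)
  intro Q
  have h1 := hkey Q 1 (by
    have := hR1 1 1
    rwa [map_one, map_one, mul_one] at this)
  rw [mul_one] at h1
  obtain ⟨c, hc⟩ := h1
  exact ⟨c, by rw [← hc, hΘ]⟩

end Pool.Agent.Q280.EI
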